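import Mathlib

open MeasureTheory Set Pointwise Filter Topology

namespace Pool.Agent.H.MP_beddab_an

variable {W : Type*} [NormedAddCommGroup W] [NormedSpace ℝ W]

/-- half-differences of boundary segments -/
def SegV (K : Set W) : Set W :=
  {v | ∃ z, z + v ∈ K ∧ z - v ∈ K ∧ ∃ l : W →ₗ[ℝ] ℝ, l z = 1 ∧ ∀ w ∈ K, l w ≤ 1}

/-- Macbeath region with factor one half -/
def Mb (K : Set W) (x : W) : Set W :=
  {p | x + (2 : ℝ) • (p - x) ∈ K ∧ x - (2 : ℝ) • (p - x) ∈ K}

lemma third {K : Set W} (hK : Convex ℝ K) {a b c : W} (ha : a ∈ K) (hb : b ∈ K) (hc : c ∈ K) :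
    (1 / 3 : ℝ) • (a + b + c) ∈ K := by
  have h1 := hK ha hb (by norm_num : (0 : ℝ) ≤ 1 / 2) (by norm_num : (0 : ℝ) ≤ 1 / 2) (by norm_num)
  have h2 := hK h1 hc (by norm_num : (0 : ℝ) ≤ 2 / 3) (by norm_num : (0 : ℝ) ≤ 1 / 3) (by norm_num)
  convert h2 using 1
  module

lemma macbeath {K : Set W} (hK : Convex ℝ K) {x y p w : W} (hx : p ∈ Mb K x) (hy : p ∈ Mb K y)
    (h1 : y + w ∈ K) (h2 : y - w ∈ K) : x + (1 / 6 : ℝ) • w ∈ Mb K x := by
  constructor
  · convert third hK h1 hy.1 hx.2 using 1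
    module
  · convert third hK h2 hy.1 hx.2 using 1
    module

lemma shrink {K : Set W} (hK : Convex ℝ K) {a b : W} (ha : a ∈ K) (hb : b ∈ K) {s : ℝ}
    (h0 : 0 ≤ s) (h1 : s ≤ 1) : (1 - s) • a + s • b ∈ K :=
  hK ha hb (by linarith) h0 (by ring)

theorem segV_null [FiniteDimensional ℝ W] [MeasurableSpace W] [BorelSpace W]
    (μ : Measure W) [μ.IsAddHaarMeasure] {K : Set W} (hK : Convex ℝ K) (hc : IsCompact K)
    (h0 : K ∈ 𝓝 (0 : W)) : μ (SegV K) = 0 := by
  set d := Module.finrank ℝ W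
  obtain ⟨r, hr, hrK⟩ := Metric.mem_nhds_iff.1 h0
  have h0K : (0 : W) ∈ K := mem_of_mem_nhds h0
  have hfin : μ K ≠ ⊤ := hc.measure_lt_top.ne
  have hMc : ∀ x, IsClosed (Mb K x) := fun x =>
    (hc.isClosed.preimage (by fun_prop : Continuous fun p : W => x + (2 : ℝ) • (p - x))).inter
      (hc.isClosed.preimage (by fun_prop : Continuous fun p : W => x - (2 : ℝ) • (p - x)))
  have key : ∀ δ : ℝ, 0 < δ → δ < 1 / 4 →
      μ (SegV K) ≤ ENNReal.ofReal (8 ^ d * ((1 - (1 - 2 * δ) ^ d) * (μ K).toReal)) := by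
    intro δ hδ hδ1
    let X : Set W := {x | ∃ z ∈ K, ∃ l : W →ₗ[ℝ] ℝ, l z = 1 ∧ (∀ w ∈ K, l w ≤ 1) ∧ x = (1 - δ) • z}
    have hXK : ∀ x ∈ X, x ∈ K := by
      rintro x ⟨z, hz, l, -, -, rfl⟩
      simpa using shrink hK hz h0K hδ.le (by linarith)
    have hself : ∀ x ∈ X, x ∈ Mb K x := fun x hx => by
      simp [Mb, hXK x hx]
    have hlayer : ∀ x ∈ X, Mb K x ⊆ K \ (1 - 2 * δ) • K := by
      intro x hx p hp
      have hxK := hXK x hx
      obtain ⟨z, hz, l, hl, hl1, rfl⟩ := hx
      constructor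
      · have := shrink hK hxK hp.1 (by norm_num : (0 : ℝ) ≤ 1 / 2) (by norm_num)
        convert this using 1
        module
      · rintro ⟨k, hk, rfl⟩
        have a1 := hl1 _ hp.2
        have a2 := hl1 _ hk
        simp only [map_sub, map_smul, smul_eq_mul, hl] at a1
        nlinarith
    have hint : ∀ x ∈ X, (interior (Mb K x)).Nonempty := by
      intro x hx
      refine ⟨x, mem_interior_iff_mem_nhds.2 (Metric.mem_nhds_iff.2 ⟨δ * r / 2, by positivity, ?_⟩)⟩
      obtain ⟨z, hz, l, -, -, hxz⟩ := hx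
      intro p hp
      rw [Metric.mem_ball, dist_eq_norm] at hp
      have hb : ∀ e : ℝ, |e| = 1 → (e * 2 / δ) • (p - x) ∈ K := by
        intro e he
        apply hrK
        rw [mem_ball_zero_iff, norm_smul, Real.norm_eq_abs, abs_div, abs_mul, he,
          abs_of_pos hδ, abs_of_pos (by norm_num : (0 : ℝ) < 2), div_mul_eq_mul_div,
          div_lt_iff₀ hδ]
        linarith
      constructor
      · have := shrink hK hz (hb 1 (by simp)) hδ.le (by linarith)
        rw [← hxz, smul_smul] at this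
        convert this using 3
        field_simp
      · have := shrink hK hz (hb (-1) (by simp)) hδ.le (by linarith)
        rw [← hxz, smul_smul] at this
        rw [sub_eq_add_neg, ← neg_smul]
        convert this using 3
        field_simp
    obtain ⟨T, hT⟩ : ∃ T, Maximal (fun T : Set W => T ⊆ X ∧ T.PairwiseDisjoint (Mb K)) T := by
      refine zorn_subset {T : Set W | T ⊆ X ∧ T.PairwiseDisjoint (Mb K)} ?_
      intro c hc hch
      refine ⟨⋃₀ c, ⟨sUnion_subset fun t ht => (hc ht).1, ?_⟩, fun s hs => subset_sUnion_of_mem hs⟩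
      exact (pairwiseDisjoint_sUnion hch.directedOn).2 fun t ht => (hc ht).2
    have hTc : T.Countable :=
      hT.prop.2.countable_of_nonempty_interior fun x hx => hint x (hT.prop.1 hx)
    have hmeet : ∀ x ∈ X, ∃ t ∈ T, ∃ p, p ∈ Mb K t ∧ p ∈ Mb K x := by
      intro x hx
      by_contra hne
      push Not at hne
      have hxT : x ∉ T := fun h => hne x h x (hself x hx) (hself x hx)
      have : insert x T ⊆ T := by
        apply hT.le_of_ge ⟨insert_subset hx hT.prop.1, ?_⟩ (subset_insert _ _)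
        refine hT.prop.2.insert ?_
        intro t ht _
        exact Set.disjoint_left.2 fun p hp hp' => hne t ht p hp' hp
      exact hxT (this (mem_insert _ _))
    have hcover : SegV K ⊆ ⋃ t ∈ T, (fun v => (1 / 8 : ℝ) • v) ⁻¹' ((fun u => t + u) ⁻¹' Mb K t) := by
      rintro v ⟨z, h1, h2, l, hl, hl1⟩
      have hz : z ∈ K := by
        have := shrink hK h1 h2 (by norm_num : (0 : ℝ) ≤ 1 / 2) (by norm_num)
        convert this using 1
        module
      have hx : (1 - δ) • z ∈ X := ⟨z, hz, l, hl, hl1, rfl⟩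
      obtain ⟨t, ht, p, hp1, hp2⟩ := hmeet _ hx
      have b1 : ∀ v : W, z + v ∈ K → (1 - δ) • z + (3 / 4 : ℝ) • v ∈ K := by
        intro v hv
        have c1 := shrink hK hz h0K (s := 4 * δ) (by positivity) (by linarith)
        have c2 := shrink hK hv c1 (by norm_num : (0 : ℝ) ≤ 1 / 4) (by norm_num)
        convert c2 using 1
        module
      have := macbeath hK hp1 hp2 (b1 v h1) (w := (3 / 4 : ℝ) • v) (by
        have := b1 (-v) (by simpa [sub_eq_add_neg] using h2)
        simpa [sub_eq_add_neg] using this)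
      refine mem_biUnion ht ?_
      simp only [mem_preimage]
      convert this using 2
      module
    have hs : (0 : ℝ) ≤ 1 - 2 * δ := by linarith
    have hsub : (1 - 2 * δ) • K ⊆ K := by
      rintro _ ⟨k, hk, rfl⟩
      simpa using shrink hK hk h0K (s := 2 * δ) (by positivity) (by linarith)
    have hpow : (1 - 2 * δ) ^ d ≤ 1 := pow_le_one₀ hs (by linarith)
    have hL : μ (K \ (1 - 2 * δ) • K) = ENNReal.ofReal ((1 - (1 - 2 * δ) ^ d) * (μ K).toReal) := by
      rw [measure_sdiff hsub (hc.smul _).isClosed.measurableSet.nullMeasurableSet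
        (hc.smul _).measure_lt_top.ne, Measure.addHaar_smul_of_nonneg μ hs, sub_mul, one_mul,
        ENNReal.ofReal_sub _ (by positivity), ENNReal.ofReal_mul (by positivity),
        ENNReal.ofReal_toReal hfin]
    calc μ (SegV K) ≤ _ := measure_mono hcover
      _ ≤ ∑' t : T, μ ((fun v => (1 / 8 : ℝ) • v) ⁻¹' ((fun u => (t : W) + u) ⁻¹' Mb K t)) :=
          measure_biUnion_le μ hTc _
      _ = ∑' t : T, ENNReal.ofReal (8 ^ d) * μ (Mb K t) := by
          congr 1
          ext t
          rw [Measure.addHaar_preimage_smul μ (by norm_num), measure_preimage_add]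
          congr 2
          rw [abs_of_pos (by positivity), one_div, inv_pow, inv_inv]
      _ = ENNReal.ofReal (8 ^ d) * μ (⋃ t ∈ T, Mb K t) := by
          rw [ENNReal.tsum_mul_left, measure_biUnion hTc hT.prop.2
            fun t _ => (hMc t).measurableSet]
      _ ≤ ENNReal.ofReal (8 ^ d) * μ (K \ (1 - 2 * δ) • K) := by
          gcongr
          exact iUnion₂_subset fun t ht => hlayer t (hT.prop.1 ht)
      _ = _ := by rw [hL, ← ENNReal.ofReal_mul (by positivity)]
  have hlim : Tendsto (fun δ : ℝ => ENNReal.ofReal (8 ^ d * ((1 - (1 - 2 * δ) ^ d) * (μ K).toReal)))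
      (𝓝[>] 0) (𝓝 0) := by
    have : Continuous fun δ : ℝ =>
        ENNReal.ofReal (8 ^ d * ((1 - (1 - 2 * δ) ^ d) * (μ K).toReal)) :=
      ENNReal.continuous_ofReal.comp (by fun_prop)
    have := (this.tendsto 0).mono_left (nhdsWithin_le_nhds (s := Ioi 0))
    simpa using this
  refine le_antisymm (ge_of_tendsto hlim ?_) (zero_le)
  filter_upwards [Ioo_mem_nhdsGT (by norm_num : (0 : ℝ) < 1 / 4)] with δ hδ
  exact key δ hδ.1 hδ.2

theorem segV_null' [FiniteDimensional ℝ W] [MeasurableSpace W] [BorelSpace W]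
    (μ : Measure W) [μ.IsAddHaarMeasure] {K : Set W} (hK : Convex ℝ K) (hc : IsCompact K)
    (h0 : (0 : W) ∈ K) : μ (SegV K) = 0 := by
  have hB : IsCompact (Metric.closedBall (0 : W) 1) := isCompact_closedBall _ _
  refine measure_mono_null ?_ (segV_null μ (hK.add (convex_closedBall 0 1)) (hc.add hB) ?_)
  · rintro v ⟨z, h1, h2, l, hl, hl1⟩
    obtain ⟨b, hb, hmax⟩ := hB.exists_isMaxOn ⟨0, by simp⟩
      (l.continuous_of_finiteDimensional.continuousOn)
    have hb0 : 0 ≤ l b := by simpa using hmax (show (0 : W) ∈ Metric.closedBall 0 1 by simp)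
    refine ⟨z + b, ⟨z + v, h1, b, hb, by abel_nf⟩, ⟨z - v, h2, b, hb, by abel_nf⟩,
      (1 + l b)⁻¹ • l, ?_, ?_⟩
    · simp only [LinearMap.smul_apply, map_add, hl, smul_eq_mul]
      field_simp
    · rintro _ ⟨k, hk, c, hcb, rfl⟩
      have a1 := hl1 k hk
      have a2 : l c ≤ l b := hmax hcb
      simp only [LinearMap.smul_apply, map_add, smul_eq_mul]
      rw [← mul_add, inv_mul_le_iff₀ (by linarith)]
      linarith
  · refine mem_of_superset (Metric.closedBall_mem_nhds 0 one_pos) fun c hcb => ⟨0, h0, c, hcb, by simp⟩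

end Pool.Agent.H.MP_beddab_an
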