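import Pool.Agent.H.MP_beddab_an.A

open MeasureTheory Set Pointwise Filter Topology

namespace Pool.Agent.H.MP_beddab_an

variable {𝕜 : Type*} [RCLike 𝕜] {E : Type*} [NormedAddCommGroup E] [NormedSpace 𝕜 E] {n : ℕ}

/-- tuples on whose span two norm one functionals agree, attain the norm, and differ at `y` -/
def Bad (𝕜 : Type*) [RCLike 𝕜] [NormedSpace 𝕜 E] (n : ℕ) (y : E) (ε R : ℝ) : Set (Fin n → E) :=
  {x | ∃ φ φ' : StrongDual 𝕜 E, ∃ a : Fin n → 𝕜, ‖φ‖ ≤ 1 ∧ ‖φ'‖ ≤ 1 ∧ ‖a‖ ≤ R ∧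
    (∀ i, φ (x i) = φ' (x i)) ∧ ‖∑ i, a i • x i‖ ≤ 1 ∧ φ (∑ i, a i • x i) = 1 ∧
    ε ≤ ‖φ y - φ' y‖}

/-- coordinates of the dual ball -/
def Kset (x : Fin n → E) (y : E) : Set (𝕜 × (Fin n → 𝕜)) :=
  {w | ∃ φ : StrongDual 𝕜 E, ‖φ‖ ≤ 1 ∧ w = (φ y, fun i => φ (x i))}

lemma Kset_compact (x : Fin n → E) (y : E) : IsCompact (Kset (𝕜 := 𝕜) x y) := by
  have h := (WeakDual.isCompact_closedBall (0 : StrongDual 𝕜 E) 1).image
    (f := fun φ : WeakDual 𝕜 E => ((φ y, fun i => φ (x i)) : 𝕜 × (Fin n → 𝕜)))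
    ((WeakDual.eval_continuous y).prodMk (continuous_pi fun i => WeakDual.eval_continuous (x i)))
  convert h using 1
  ext w
  constructor
  · rintro ⟨φ, h1, rfl⟩
    exact ⟨StrongDual.toWeakDual φ, by simpa using h1, rfl⟩
  · rintro ⟨φ, h1, rfl⟩
    exact ⟨WeakDual.toStrongDual φ, by simpa using h1, rfl⟩

lemma comb_mem (x : Fin n → E) (y : E) {φ φ' : StrongDual 𝕜 E} (h : ‖φ‖ ≤ 1) (h' : ‖φ'‖ ≤ 1)
    {a b : 𝕜} (hab : ‖a‖ + ‖b‖ ≤ 1) :
    ((a * φ y + b * φ' y, fun i => a * φ (x i) + b * φ' (x i)) : 𝕜 × (Fin n → 𝕜)) ∈ Kset x y := by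
  refine ⟨a • φ + b • φ', ?_, rfl⟩
  calc ‖a • φ + b • φ'‖ ≤ ‖a‖ * ‖φ‖ + ‖b‖ * ‖φ'‖ := by
        refine (norm_add_le _ _).trans ?_
        rw [norm_smul, norm_smul]
    _ ≤ ‖a‖ * 1 + ‖b‖ * 1 := by gcongr
    _ ≤ 1 := by linarith

lemma Kset_convex (x : Fin n → E) (y : E) : Convex ℝ (Kset (𝕜 := 𝕜) x y) := by
  rintro _ ⟨φ, h, rfl⟩ _ ⟨φ', h', rfl⟩ a b ha hb hab
  have := comb_mem x y h h' (a := (a : 𝕜)) (b := (b : 𝕜)) (by
    simp [abs_of_nonneg ha, abs_of_nonneg hb, hab])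
  convert this using 1
  ext <;> simp [RCLike.real_smul_eq_coe_mul]

lemma bad_seg (x : Fin n → E) (y : E) {ε R : ℝ} (s : Fin n → 𝕜)
    (hb : (fun i => x i + s i • y) ∈ Bad 𝕜 n y ε R) {θ : 𝕜} (h0 : θ ≠ 0) (hθ : ‖θ‖ ≤ ε / 2) :
    (θ, (-θ) • s) ∈ SegV (Kset x y) := by
  obtain ⟨φ, φ', a, h1, h2, -, h3, h4, h5, h6⟩ := hb
  have hpos : 0 < ‖θ‖ := norm_pos_iff.2 h0
  set Δ := φ y - φ' y with hΔ
  have hΔpos : 0 < ‖Δ‖ := by linarith
  have hΔ0 : Δ ≠ 0 := norm_pos_iff.1 hΔpos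
  set c : 𝕜 := θ / Δ with hc
  have hc0 : c ≠ 0 := div_ne_zero h0 hΔ0
  have hcpos : 0 < ‖c‖ := norm_pos_iff.2 hc0
  have hc1 : ‖c‖ ≤ 1 / 2 := by
    rw [hc, norm_div, div_le_iff₀ hΔpos]
    linarith
  set u : 𝕜 := c / (‖c‖ : 𝕜) with hu
  have hcn : ((‖c‖ : ℝ) : 𝕜) ≠ 0 := by exact_mod_cast hcpos.ne'
  have hu1 : ‖u‖ = 1 := by
    rw [hu, norm_div, RCLike.norm_ofReal, abs_norm, div_self hcpos.ne']
  have hcu : c = (‖c‖ : 𝕜) * u := by rw [hu]; field_simp
  have hθc : θ = c * Δ := by rw [hc]; field_simp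
  have hn1 : ‖u / 2 + c‖ + ‖u / 2 - c‖ ≤ 1 := by
    have e1 : u / 2 + c = ((1 / 2 + ‖c‖ : ℝ) : 𝕜) * u := by
      conv_lhs => rw [hcu]
      push_cast
      ring
    have e2 : u / 2 - c = ((1 / 2 - ‖c‖ : ℝ) : 𝕜) * u := by
      conv_lhs => rw [hcu]
      push_cast
      ring
    rw [e1, e2, norm_mul, norm_mul, hu1, RCLike.norm_ofReal, RCLike.norm_ofReal,
      abs_of_nonneg (by linarith), abs_of_nonneg (by linarith)]
    linarith
  have hd : ∀ i, φ (x i) - φ' (x i) = -(s i * Δ) := by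
    intro i
    have := h3 i
    simp only [map_add, map_smul, smul_eq_mul] at this
    rw [hΔ]
    linear_combination this
  let l : (𝕜 × (Fin n → 𝕜)) →ₗ[ℝ] ℝ :=
    { toFun := fun w => RCLike.re (u⁻¹ * ∑ i, a i * (w.2 i + s i * w.1))
      map_add' := by
        intro w w'
        rw [← map_add, ← mul_add, ← Finset.sum_add_distrib]
        congr 2
        refine Finset.sum_congr rfl fun i _ => ?_
        simp only [Prod.snd_add, Pi.add_apply, Prod.fst_add]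
        ring
      map_smul' := by
        intro r w
        simp only [RingHom.id_apply, smul_eq_mul]
        rw [← RCLike.re_ofReal_mul, ← mul_assoc, mul_comm (r : 𝕜), mul_assoc, Finset.mul_sum (a := (r : 𝕜))]
        congr 2
        refine Finset.sum_congr rfl fun i _ => ?_
        simp only [Prod.smul_snd, Pi.smul_apply, Prod.smul_fst, RCLike.real_smul_eq_coe_mul]
        ring }
  have hl : ∀ χ : StrongDual 𝕜 E, l (χ y, fun i => χ (x i)) =
      RCLike.re (u⁻¹ * χ (∑ i, a i • (x i + s i • y))) := by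
    intro χ
    change RCLike.re (u⁻¹ * ∑ i, a i * (χ (x i) + s i * χ y)) = _
    congr 2
    simp only [map_sum, map_smul, map_add, smul_eq_mul]
  have hu0 : u ≠ 0 := norm_pos_iff.1 (by rw [hu1]; exact one_pos)
  have h5' : φ' (∑ i, a i • (x i + s i • y)) = 1 := by
    rw [← h5, map_sum, map_sum]
    refine Finset.sum_congr rfl fun i _ => ?_
    rw [map_smul, map_smul, h3 i]
  refine ⟨(((u / 2) • φ + (u / 2) • φ') y, fun i => ((u / 2) • φ + (u / 2) • φ') (x i)), ?_, ?_,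
    l, ?_, ?_⟩
  · convert comb_mem x y h1 h2 hn1 using 1
    ext i
    · simp only [Prod.fst_add, _root_.add_apply, _root_.smul_apply, smul_eq_mul]
      rw [hθc, hΔ]
      ring
    · simp only [Prod.snd_add, Pi.add_apply, Pi.smul_apply, _root_.add_apply, _root_.smul_apply,
        smul_eq_mul]
      rw [hθc]
      linear_combination (-c) * hd i
  · convert comb_mem x y h1 h2 (a := u / 2 - c) (b := u / 2 + c) (by linarith) using 1
    ext i
    · simp only [Prod.fst_sub, _root_.add_apply, _root_.smul_apply, smul_eq_mul]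
      rw [hθc, hΔ]
      ring
    · simp only [Prod.snd_sub, Pi.sub_apply, Pi.smul_apply, _root_.add_apply, _root_.smul_apply,
        smul_eq_mul]
      rw [hθc]
      linear_combination c * hd i
  · rw [hl]
    simp only [_root_.add_apply, _root_.smul_apply, smul_eq_mul, h5, h5']
    have : u⁻¹ * (u / 2 * 1 + u / 2 * 1) = 1 := by field_simp; ring
    rw [this, RCLike.one_re]
  · rintro _ ⟨χ, hχ, rfl⟩
    rw [hl]
    refine (RCLike.re_le_norm _).trans ?_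
    rw [norm_mul, norm_inv, hu1, inv_one, one_mul]
    refine (χ.le_opNorm _).trans ?_
    exact mul_le_one₀ hχ (norm_nonneg _) h4

lemma bad_dense (y : E) {ε : ℝ} (hε : 0 < ε) (R : ℝ) : Dense (Bad 𝕜 n y ε R)ᶜ := by
  refine Metric.dense_iff.2 fun x η hη => ?_
  let μ : Measure 𝕜 := Measure.addHaar
  let ν : Measure (Fin n → 𝕜) := Measure.addHaar
  have hnull := segV_null' (μ.prod ν) (Kset_convex (𝕜 := 𝕜) x y) (Kset_compact x y)
    ⟨0, by simp, by ext <;> simp⟩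
  have hae := Measure.measure_ae_null_of_prod_null hnull
  have hd := Measure.dense_of_ae (μ := μ) hae
  obtain ⟨θ, ⟨hθ1, hθ0⟩, hθ⟩ := hd.inter_open_nonempty (Metric.ball 0 (ε / 2) ∩ {0}ᶜ)
    (Metric.isOpen_ball.inter isOpen_compl_singleton) ⟨((ε / 4 : ℝ) : 𝕜), by
      rw [mem_ball_zero_iff, RCLike.norm_ofReal, abs_of_pos (by positivity)]
      linarith, by
      simp only [mem_compl_iff, mem_singleton_iff, RCLike.ofReal_eq_zero]
      positivity⟩
  have hθ0' : θ ≠ 0 := hθ0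
  have hpos : 0 < ‖θ‖ := norm_pos_iff.2 hθ0'
  have hae2 : ∀ᵐ u ∂ν, (θ, u) ∉ SegV (Kset (𝕜 := 𝕜) x y) := measure_eq_zero_iff_ae_notMem.1 hθ
  obtain ⟨u, hu1, hu⟩ := (Measure.dense_of_ae hae2).inter_open_nonempty
    (Metric.ball 0 (‖θ‖ * (η / (‖y‖ + 1)))) Metric.isOpen_ball ⟨0, by
      rw [mem_ball_zero_iff, norm_zero]; positivity⟩
  rw [mem_ball_zero_iff] at hu1 hθ1
  set s : Fin n → 𝕜 := (-θ)⁻¹ • u with hs
  have hsn : ‖s‖ < η / (‖y‖ + 1) := by
    rw [hs, norm_smul, norm_inv, norm_neg, inv_mul_lt_iff₀ hpos]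
    exact hu1
  refine ⟨fun i => x i + s i • y, ?_, fun hb => hu ?_⟩
  · rw [Metric.mem_ball, dist_pi_lt_iff hη]
    intro i
    rw [dist_eq_norm, add_sub_cancel_left, norm_smul]
    have a1 : ‖s i‖ ≤ ‖s‖ := norm_le_pi_norm s i
    rw [lt_div_iff₀ (by positivity)] at hsn
    nlinarith [norm_nonneg y, norm_nonneg (s i), norm_nonneg s]
  · have := bad_seg x y s hb hθ0' hθ1.le
    rwa [hs, smul_smul, mul_inv_cancel₀ (neg_ne_zero.2 hθ0'), one_smul] at this

lemma cont_eval {X : Type*} [TopologicalSpace X] {f : X → WeakDual 𝕜 E} {g : X → E}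
    (hf : Continuous f) (hg : Continuous g) (hb : ∀ t, ‖WeakDual.toStrongDual (f t)‖ ≤ 1) :
    Continuous fun t => f t (g t) := by
  refine continuous_iff_continuousAt.2 fun t0 => ?_
  have h1 : Tendsto (fun t => f t (g t0)) (𝓝 t0) (𝓝 (f t0 (g t0))) :=
    ((WeakDual.eval_continuous (g t0)).comp hf).tendsto t0
  have h2 : Tendsto (fun t => f t (g t - g t0)) (𝓝 t0) (𝓝 0) := by
    refine squeeze_zero_norm (a := fun t => ‖g t - g t0‖) (fun t => ?_) ?_
    · refine ((WeakDual.toStrongDual (f t)).le_opNorm _).trans ?_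
      exact mul_le_of_le_one_left (norm_nonneg _) (hb t)
    · exact tendsto_iff_norm_sub_tendsto_zero.1 (hg.tendsto t0)
  have := h2.add h1
  rw [zero_add] at this
  refine this.congr fun t => ?_
  simp

lemma bad_closed (y : E) (ε R : ℝ) : IsClosed (Bad 𝕜 n y ε R) := by
  let B : Set (WeakDual 𝕜 E) := WeakDual.toStrongDual ⁻¹' Metric.closedBall 0 1
  let A : Set (Fin n → 𝕜) := Metric.closedBall 0 R
  have hB : IsCompact B := WeakDual.isCompact_closedBall _ _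
  have : CompactSpace B := isCompact_iff_compactSpace.1 hB
  have : CompactSpace A := isCompact_iff_compactSpace.1 (isCompact_closedBall _ _)
  let S : Set ((Fin n → E) × B × B × A) := {p | (∀ i, p.2.1.1 (p.1 i) = p.2.2.1.1 (p.1 i)) ∧
    ‖∑ i, p.2.2.2.1 i • p.1 i‖ ≤ 1 ∧ p.2.1.1 (∑ i, p.2.2.2.1 i • p.1 i) = 1 ∧
    ε ≤ ‖p.2.1.1 y - p.2.2.1.1 y‖}
  have c1 : Continuous fun p : (Fin n → E) × B × B × A => p.2.1.1 := by fun_prop
  have c2 : Continuous fun p : (Fin n → E) × B × B × A => p.2.2.1.1 := by fun_prop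
  have b1 : ∀ p : (Fin n → E) × B × B × A, ‖WeakDual.toStrongDual p.2.1.1‖ ≤ 1 := fun p =>
    mem_closedBall_zero_iff.1 p.2.1.2
  have b2 : ∀ p : (Fin n → E) × B × B × A, ‖WeakDual.toStrongDual p.2.2.1.1‖ ≤ 1 := fun p =>
    mem_closedBall_zero_iff.1 p.2.2.1.2
  have c4 : Continuous fun p : (Fin n → E) × B × B × A => p.2.2.2.1 := by fun_prop
  have c5 : ∀ i, Continuous fun p : (Fin n → E) × B × B × A => p.1 i := fun i =>
    (continuous_apply i).comp continuous_fst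
  have c3 : Continuous fun p : (Fin n → E) × B × B × A => ∑ i, p.2.2.2.1 i • p.1 i :=
    continuous_finsetSum _ fun i _ => ((continuous_apply i).comp c4).smul (c5 i)
  have hS : IsClosed S := by
    refine IsClosed.inter (s₁ := {p : (Fin n → E) × B × B × A |
      ∀ i, p.2.1.1 (p.1 i) = p.2.2.1.1 (p.1 i)}) ?_ (IsClosed.inter ?_ (IsClosed.inter ?_ ?_))
    · rw [ofPred_forall]
      exact isClosed_iInter fun i => isClosed_eq (cont_eval c1 (c5 i) b1)
        (cont_eval c2 (c5 i) b2)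
    · exact isClosed_le c3.norm continuous_const
    · exact isClosed_eq (cont_eval c1 c3 b1) continuous_const
    · exact isClosed_le continuous_const
        ((cont_eval c1 continuous_const b1).sub (cont_eval c2 continuous_const b2)).norm
  convert isClosedMap_fst_of_compactSpace S hS using 1
  ext x
  constructor
  · rintro ⟨φ, φ', a, h1, h2, h3, h⟩
    exact ⟨(x, ⟨StrongDual.toWeakDual φ, mem_closedBall_zero_iff.2 h1⟩,
      ⟨StrongDual.toWeakDual φ', mem_closedBall_zero_iff.2 h2⟩,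
      ⟨a, mem_closedBall_zero_iff.2 h3⟩), h, rfl⟩
  · rintro ⟨p, h, rfl⟩
    exact ⟨WeakDual.toStrongDual p.2.1.1, WeakDual.toStrongDual p.2.2.1.1, p.2.2.2.1, b1 p, b2 p,
      mem_closedBall_zero_iff.1 p.2.2.2.2, h⟩

/-- a tuple whose span has unique norm preserving extensions -/
theorem exists_good [CompleteSpace E] [TopologicalSpace.SeparableSpace E]
    (hn : ∃ x : Fin n → E, LinearIndependent 𝕜 x) :
    ∃ x : Fin n → E, LinearIndependent 𝕜 x ∧ ∀ φ φ' : StrongDual 𝕜 E, ‖φ‖ ≤ 1 → ‖φ'‖ ≤ 1 →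
      (∀ i, φ (x i) = φ' (x i)) → ∀ a : Fin n → 𝕜, ‖∑ i, a i • x i‖ ≤ 1 →
      φ (∑ i, a i • x i) = 1 → φ = φ' := by
  obtain ⟨y, hy⟩ := TopologicalSpace.exists_dense_seq E
  have hd : Dense (⋂ p : ℕ × ℕ, (Bad 𝕜 n (y p.1) (1 / ((p.2 : ℝ) + 1)) p.2)ᶜ) :=
    dense_iInter_of_isOpen (fun p => (bad_closed _ _ _).isOpen_compl)
      fun p => bad_dense _ (by positivity) _
  obtain ⟨x, hx1, hx⟩ := hd.inter_open_nonempty _ isOpen_setOfPred_linearIndependent hn
  refine ⟨x, hx1, fun φ φ' h1 h2 h3 a h4 h5 => ?_⟩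
  have : ∀ k, φ (y k) = φ' (y k) := by
    intro k
    by_contra hne
    have hp : 0 < ‖φ (y k) - φ' (y k)‖ := norm_pos_iff.2 (sub_ne_zero.2 hne)
    obtain ⟨j, hj⟩ := exists_nat_one_div_lt hp
    obtain ⟨m, hm⟩ := exists_nat_ge ‖a‖
    refine mem_iInter.1 hx (k, max j m) ⟨φ, φ', a, h1, h2, ?_, h3, h4, h5, ?_⟩
    · exact hm.trans (by exact_mod_cast le_max_right j m)
    · refine le_trans ?_ hj.le
      gcongr
      exact le_max_left j m
  ext z
  exact congrFun (hy.equalizer φ.continuous φ'.continuous (funext this)) z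

end Pool.Agent.H.MP_beddab_an
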