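import Pool.Agent.H.MP_beddab_an.B

open Set Filter Topology

namespace Pool.Agent.H.MP_beddab_an

universe u

variable {𝕜 : Type} [RCLike 𝕜] {E : Type u} [NormedAddCommGroup E] [NormedSpace 𝕜 E] {n : ℕ}

/-- evaluation at a tuple -/
def evT (x : Fin n → E) : StrongDual 𝕜 E →ₗ[𝕜] (Fin n → 𝕜) where
  toFun f := fun i => f (x i)
  map_add' _ _ := rfl
  map_smul' _ _ := rfl

lemma evT_surj {x : Fin n → E} (hx : LinearIndependent 𝕜 x) :
    Function.Surjective (evT (𝕜 := 𝕜) x) := by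
  intro c
  let b := Module.Basis.span hx
  have : FiniteDimensional 𝕜 (Submodule.span 𝕜 (range x)) :=
    FiniteDimensional.span_of_finite 𝕜 (finite_range x)
  obtain ⟨g, hg, -⟩ := exists_extension_norm_eq (Submodule.span 𝕜 (range x))
    (LinearMap.toContinuousLinearMap (b.constr 𝕜 c))
  refine ⟨g, funext fun i => ?_⟩
  have := hg (b i)
  rw [LinearMap.coe_toContinuousLinearMap', Module.Basis.constr_basis,
    Module.Basis.span_apply] at this
  exact this

theorem positive [CompleteSpace E] [TopologicalSpace.SeparableSpace E]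
    (hn : (n : Cardinal) ≤ Module.rank 𝕜 E) :
    ∃ Γ : Submodule 𝕜 (StrongDual 𝕜 E),
      IsClosed (StrongDual.toWeakDual '' (Γ : Set (StrongDual 𝕜 E))) ∧
      Module.rank 𝕜 (StrongDual 𝕜 E ⧸ Γ) = n ∧ IsClosed (Γ : Set (StrongDual 𝕜 E)) ∧
      ∀ f : StrongDual 𝕜 E, ∃! g, g ∈ Γ ∧ ‖f - g‖ = Metric.infDist f Γ := by
  obtain ⟨x, hx, hgood⟩ := exists_good (exists_linearIndependent_of_le_rank hn)
  have hmem : ∀ g : StrongDual 𝕜 E, g ∈ LinearMap.ker (evT (𝕜 := 𝕜) x) ↔ ∀ i, g (x i) = 0 :=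
    fun g => funext_iff
  refine ⟨LinearMap.ker (evT x), ?_, ?_, ?_, fun f => ?_⟩
  · have : StrongDual.toWeakDual '' (LinearMap.ker (evT (𝕜 := 𝕜) x) : Set (StrongDual 𝕜 E)) =
        ⋂ i, {g : WeakDual 𝕜 E | g (x i) = 0} := by
      ext g
      simp only [mem_iInter, mem_ofPred_eq]
      constructor
      · rintro ⟨g, hg, rfl⟩
        exact (hmem g).1 hg
      · intro h
        exact ⟨WeakDual.toStrongDual g, (hmem _).2 h, rfl⟩
    rw [this]
    exact isClosed_iInter fun i => isClosed_eq (WeakDual.eval_continuous _) continuous_const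
  · have e := (evT (𝕜 := 𝕜) x).quotKerEquivOfSurjective (evT_surj hx)
    have := e.symm.finiteDimensional
    rw [← Module.finrank_eq_rank, e.finrank_eq]
    simp
  · have : (LinearMap.ker (evT (𝕜 := 𝕜) x) : Set (StrongDual 𝕜 E)) =
        ⋂ i, {g : StrongDual 𝕜 E | g (x i) = 0} := by
      ext g
      simp only [mem_iInter, mem_ofPred_eq]
      exact hmem g
    rw [this]
    exact isClosed_iInter fun i => isClosed_eq (by fun_prop) continuous_const
  · let G := Submodule.span 𝕜 (range x)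
    have : FiniteDimensional 𝕜 G := FiniteDimensional.span_of_finite 𝕜 (finite_range x)
    let f0 : StrongDual 𝕜 G := f.comp G.subtypeL
    obtain ⟨g, hg, hgn⟩ := exists_extension_norm_eq G f0
    have hxG : ∀ i, x i ∈ G := fun i => Submodule.subset_span (mem_range_self i)
    have hvan : ∀ γ ∈ LinearMap.ker (evT (𝕜 := 𝕜) x), ∀ z : G, γ z = 0 := by
      rintro γ hγ ⟨z, hz⟩
      obtain ⟨a, rfl⟩ := (Submodule.mem_span_range_iff_exists_fun 𝕜).1 hz
      simp [map_sum, (hmem γ).1 hγ]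
    have hlow : ∀ γ ∈ LinearMap.ker (evT (𝕜 := 𝕜) x), ‖f0‖ ≤ ‖f - γ‖ := by
      intro γ hγ
      refine f0.opNorm_le_bound (norm_nonneg _) fun z => ?_
      have : f0 z = (f - γ) z := by simp [f0, hvan γ hγ z]
      rw [this]
      exact (f - γ).le_opNorm _
    have hfg : f - g ∈ LinearMap.ker (evT (𝕜 := 𝕜) x) := by
      refine (hmem _).2 fun i => ?_
      have := hg ⟨x i, hxG i⟩
      simp only [f0, ContinuousLinearMap.comp_apply, Submodule.subtypeL_apply] at this
      simp [this]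
    have hd : Metric.infDist f (LinearMap.ker (evT (𝕜 := 𝕜) x) : Set (StrongDual 𝕜 E)) = ‖f0‖ := by
      apply le_antisymm
      · refine (Metric.infDist_le_dist_of_mem hfg).trans ?_
        rw [dist_eq_norm, sub_sub_cancel, hgn]
      · refine (Metric.le_infDist ⟨_, hfg⟩).2 fun γ hγ => ?_
        rw [dist_eq_norm]
        exact hlow γ hγ
    rw [hd]
    refine ⟨f - g, ⟨hfg, by rw [sub_sub_cancel, hgn]⟩, ?_⟩
    rintro γ ⟨hγ, hγn⟩
    rcases (norm_nonneg f0).eq_or_lt with h0 | hpos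
    · rw [← h0, norm_eq_zero] at hγn hgn
      rw [hgn, sub_zero]
      exact (sub_eq_zero.1 hγn).symm
    · have : ProperSpace G := FiniteDimensional.proper_rclike 𝕜 G
      obtain ⟨z, hz, hmax⟩ := (isCompact_closedBall (0 : G) 1).exists_isMaxOn ⟨0, by simp⟩
        (f0.continuous.norm.continuousOn)
      have hz1 : ‖z‖ ≤ 1 := mem_closedBall_zero_iff.1 hz
      have hzn : ‖f0 z‖ = ‖f0‖ := by
        apply le_antisymm
        · exact (f0.le_opNorm z).trans (mul_le_of_le_one_right hpos.le hz1)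
        · refine ContinuousLinearMap.opNorm_le_of_unit_norm (norm_nonneg _) fun w hw => ?_
          exact hmax (mem_closedBall_zero_iff.2 hw.le)
      obtain ⟨c, hc1, hc⟩ := RCLike.exists_norm_eq_mul_self (f0 z)
      obtain ⟨a, ha⟩ := (Submodule.mem_span_range_iff_exists_fun 𝕜).1 (c • z).2
      have hne : ((‖f0‖ : ℝ) : 𝕜) ≠ 0 := by exact_mod_cast hpos.ne'
      have hn1 : ∀ h : StrongDual 𝕜 E, ‖h‖ = ‖f0‖ → ‖((‖f0‖ : ℝ) : 𝕜)⁻¹ • h‖ ≤ 1 := by
        intro h hh
        rw [norm_smul, norm_inv, RCLike.norm_ofReal, abs_norm, hh, inv_mul_cancel₀ hpos.ne']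
      have := hgood _ _ (hn1 g hgn) (hn1 _ hγn) (fun i => ?_) a ?_ ?_
      · have h2 : g = f - γ := by
          have h3 := congrArg (fun h : StrongDual 𝕜 E => ((‖f0‖ : ℝ) : 𝕜) • h) this
          simpa only [smul_smul, mul_inv_cancel₀ hne, one_smul] using h3
        rw [h2, sub_sub_cancel]
      · have a1 := (hmem _).1 hfg i
        have a2 := (hmem _).1 hγ i
        simp only [_root_.smul_apply, _root_.sub_apply, a2, sub_zero] at a1 ⊢
        rw [sub_eq_zero.1 a1]
      · rw [ha]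
        change ‖c • z‖ ≤ 1
        rw [norm_smul, hc1, one_mul]
        exact hz1
      · rw [ha, _root_.smul_apply, hg (c • z), map_smul, smul_eq_mul, smul_eq_mul, ← hc, hzn,
          inv_mul_cancel₀ hne]

end Pool.Agent.H.MP_beddab_an
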