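import Mathlib

open Set Filter Topology

namespace Pool.Agent.H.MP_beddab_an

/-- finitely supported sequences, to be given the sum norm -/
def C00 (𝕜 : Type) [RCLike 𝕜] : Type := ℕ →₀ 𝕜

variable {𝕜 : Type} [RCLike 𝕜]

noncomputable instance : AddCommGroup (C00 𝕜) := inferInstanceAs (AddCommGroup (ℕ →₀ 𝕜))
noncomputable instance : Module 𝕜 (C00 𝕜) := inferInstanceAs (Module 𝕜 (ℕ →₀ 𝕜))

/-- the identity -/
noncomputable def toF : C00 𝕜 ≃ₗ[𝕜] (ℕ →₀ 𝕜) := LinearEquiv.refl 𝕜 _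

lemma summ (x : ℕ →₀ 𝕜) : Summable fun i => ‖x i‖ :=
  summable_of_ne_finset_zero (s := x.support) fun i hi => by
    simpa using hi

/-- the sum norm -/
noncomputable def nrm : AddGroupNorm (C00 𝕜) where
  toFun x := ∑' i, ‖toF x i‖
  map_zero' := by simp
  add_le' x y := by
    rw [← (summ (toF x)).tsum_add (summ (toF y))]
    refine (summ _).tsum_le_tsum (fun i => ?_) ((summ _).add (summ _))
    rw [map_add, Finsupp.add_apply]
    exact norm_add_le _ _
  neg' x := by simp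
  eq_zero_of_map_eq_zero' x hx := by
    apply toF.injective
    ext i
    have := (summ (toF x)).le_tsum i fun j _ => norm_nonneg _
    rw [hx] at this
    simpa using this

noncomputable instance : NormedAddCommGroup (C00 𝕜) := nrm.toNormedAddCommGroup

lemma norm_def (x : C00 𝕜) : ‖x‖ = ∑' i, ‖toF x i‖ := rfl

noncomputable instance : NormedSpace 𝕜 (C00 𝕜) where
  norm_smul_le c x := by
    rw [norm_def, norm_def, ← tsum_mul_left]
    simp

/-- unit vectors -/
noncomputable def ee (i : ℕ) : C00 𝕜 := toF.symm (Finsupp.single i 1)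

lemma expand (x : C00 𝕜) : x = ∑ i ∈ (toF x).support, toF x i • ee i := by
  apply toF.injective
  simp only [ee, map_sum, map_smul, LinearEquiv.apply_symm_apply, Finsupp.smul_single, smul_eq_mul,
    mul_one]
  exact (Finsupp.sum_single _).symm

lemma norm_ee (i : ℕ) : ‖(ee i : C00 𝕜)‖ = 1 := by
  rw [norm_def, tsum_eq_single i]
  · simp [ee]
  · intro j hj
    simp [ee, Finsupp.single_eq_of_ne hj]

lemma norm_le_of (g : StrongDual 𝕜 (C00 𝕜)) {d : ℝ} (hd : 0 ≤ d) (h : ∀ i, ‖g (ee i)‖ ≤ d) :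
    ‖g‖ ≤ d := by
  refine g.opNorm_le_bound hd fun x => ?_
  conv_lhs => rw [expand x, map_sum]
  refine (norm_sum_le _ _).trans ?_
  rw [norm_def, tsum_eq_sum (s := (toF x).support) (fun i hi => by simpa using hi), Finset.mul_sum]
  refine Finset.sum_le_sum fun i _ => ?_
  rw [map_smul, norm_smul, mul_comm]
  exact mul_le_mul_of_nonneg_right (h i) (norm_nonneg _)

/-- coordinate functionals -/
noncomputable def pp (m : ℕ) : StrongDual 𝕜 (C00 𝕜) :=
  LinearMap.mkContinuous ((Finsupp.lapply m).comp toF.toLinearMap) 1 fun x => by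
    rw [one_mul, norm_def]
    exact (summ (toF x)).le_tsum m fun j _ => norm_nonneg _

lemma pp_ee (m i : ℕ) : pp m (ee i : C00 𝕜) = if i = m then 1 else 0 := by
  simp [pp, ee, Finsupp.single_apply]

lemma sep : TopologicalSpace.SeparableSpace (C00 𝕜) := by
  rw [← TopologicalSpace.isSeparable_univ_iff]
  refine ((countable_range (ee (𝕜 := 𝕜))).isSeparable.span (R := 𝕜)).mono fun x _ => ?_
  rw [expand x]
  exact Submodule.sum_mem _ fun i _ => Submodule.smul_mem _ _
    (Submodule.subset_span (mem_range_self i))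

lemma rank_inf : Cardinal.aleph0 ≤ Module.rank 𝕜 (C00 𝕜) := by
  rw [toF.rank_eq]
  simp

/-- functionals vanishing on the first unit vectors -/
def NN (m : ℕ) : Submodule 𝕜 (StrongDual 𝕜 (C00 𝕜)) where
  carrier := {g | ∀ i < m, g (ee i) = 0}
  add_mem' ha hb i hi := by simp [ha i hi, hb i hi]
  zero_mem' _ _ := rfl
  smul_mem' c g hg i hi := by simp [hg i hi]

theorem negative {n : ℕ} (hn : 1 ≤ n) (Γ : Submodule 𝕜 (StrongDual 𝕜 (C00 𝕜)))
    (hcl : IsClosed (StrongDual.toWeakDual '' (Γ : Set (StrongDual 𝕜 (C00 𝕜)))))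
    (hr : Module.rank 𝕜 (StrongDual 𝕜 (C00 𝕜) ⧸ Γ) = n) :
    ¬ ∀ f : StrongDual 𝕜 (C00 𝕜), ∃! g, g ∈ Γ ∧ ‖f - g‖ = Metric.infDist f Γ := by
  intro hch
  have : FiniteDimensional 𝕜 (StrongDual 𝕜 (C00 𝕜) ⧸ Γ) := Module.finite_of_rank_eq_nat hr
  obtain ⟨m, hm⟩ := IsArtinian.monotone_stabilizes (R := 𝕜) (M := StrongDual 𝕜 (C00 𝕜) ⧸ Γ)
    ⟨fun m => OrderDual.toDual ((NN m).map Γ.mkQ), fun a b hab =>
      Submodule.map_mono fun g hg i hi => hg i (lt_of_lt_of_le hi hab)⟩
  have hN : ∀ g ∈ NN m, g ∈ Γ := by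
    intro g hg
    have h1 : ∀ k, ∃ h ∈ NN (m + k), g - h ∈ Γ := by
      intro k
      have e : (NN m).map Γ.mkQ = (NN (m + k)).map Γ.mkQ := hm (m + k) (Nat.le_add_right _ _)
      obtain ⟨h, hh, hq⟩ := e ▸ Submodule.mem_map_of_mem (f := Γ.mkQ) hg
      exact ⟨h, hh, (Submodule.Quotient.eq Γ).1 hq.symm⟩
    choose h hh hΓ using h1
    have ht : Tendsto (fun k => StrongDual.toWeakDual (g - h k)) atTop
        (𝓝 (StrongDual.toWeakDual g)) := by
      refine tendsto_iff_forall_eval_tendsto_topDualPairing.2 fun x => ?_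
      refine tendsto_const_nhds.congr' ?_
      filter_upwards [eventually_gt_atTop ((toF x).support.sup id)] with k hk
      change g x = g x - h k x
      have : h k x = 0 := by
        rw [expand x, map_sum]
        refine Finset.sum_eq_zero fun i hi => ?_
        have : i ≤ (toF x).support.sup id := Finset.le_sup (f := id) hi
        rw [map_smul, hh k i (by omega), smul_zero]
      rw [this, sub_zero]
    obtain ⟨g', hg', e⟩ := hcl.mem_of_tendsto ht (Eventually.of_forall fun k => ⟨_, hΓ k, rfl⟩)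
    rwa [← StrongDual.toWeakDual.injective e]
  have hnt : Nontrivial (StrongDual 𝕜 (C00 𝕜) ⧸ Γ) := by
    rw [← rank_pos_iff_nontrivial (R := 𝕜), hr]
    exact_mod_cast hn
  obtain ⟨q, hq⟩ := exists_ne (0 : StrongDual 𝕜 (C00 𝕜) ⧸ Γ)
  obtain ⟨f, rfl⟩ := Γ.mkQ_surjective q
  have hf : f ∉ Γ := fun h => hq ((Submodule.Quotient.mk_eq_zero Γ).2 h)
  obtain ⟨γ, ⟨hγ, hd⟩, huniq⟩ := hch f
  have hpos : 0 < ‖f - γ‖ := norm_pos_iff.2 (sub_ne_zero.2 fun h => hf (h ▸ hγ))
  obtain ⟨c, hc1, hc2⟩ : ∃ c : 𝕜, ‖c‖ ≤ ‖f - γ‖ ∧ c ≠ (f - γ) (ee m) := by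
    by_cases h : (f - γ) (ee m) = 0
    · refine ⟨(‖f - γ‖ : ℝ), by simp, ?_⟩
      rw [h]
      exact_mod_cast hpos.ne'
    · exact ⟨0, by simp, fun e => h e.symm⟩
  have hp : pp m ∈ Γ := hN _ fun i hi => by rw [pp_ee, if_neg hi.ne]
  have hmem : γ - (c - (f - γ) (ee m)) • pp m ∈ Γ := Γ.sub_mem hγ (Γ.smul_mem _ hp)
  have := huniq _ ⟨hmem, le_antisymm ?_ ?_⟩
  · have := congrArg (fun g : StrongDual 𝕜 (C00 𝕜) => g (ee m)) (sub_eq_self.1 this)
    simp only [_root_.smul_apply, pp_ee, if_true, smul_eq_mul, mul_one,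
      _root_.zero_apply] at this
    exact hc2 (sub_eq_zero.1 this)
  · rw [← hd]
    refine norm_le_of _ hpos.le fun i => ?_
    have e : (f - (γ - (c - (f - γ) (ee m)) • pp m) : StrongDual 𝕜 (C00 𝕜)) (ee i) =
        (f - γ) (ee i) + (c - (f - γ) (ee m)) * pp m (ee i) := by
      simp only [_root_.sub_apply, _root_.smul_apply, smul_eq_mul]
      ring
    rw [e, pp_ee]
    split_ifs with h
    · rw [h]
      simpa using hc1
    · rw [mul_zero, add_zero]
      simpa [norm_ee] using (f - γ).le_opNorm (ee i)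
  · rw [← dist_eq_norm]
    exact Metric.infDist_le_dist_of_mem hmem

end Pool.Agent.H.MP_beddab_an
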